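import Mathlib

/-!
# A product over a finite set with a permutation
-/

namespace OE

open Finset

/-- If the product of `η` over every period of every orbit of a permutation is one, so is the product
over everything. -/
theorem prod_eq_one_of_orbit {Ω G : Type*} [Fintype Ω] [Field G] (π : Equiv.Perm Ω) (η : Ω → G)
    (hη : ∀ ω, η ω ≠ 0)
    (h : ∀ ω (m : ℕ), 0 < m → (π ^ m) ω = ω → ∏ k ∈ range m, η ((π ^ k) ω) = 1) :
    ∏ ω, η ω = 1 := by
  classical
  -- representatives of the orbits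
  let S := Equiv.Perm.SameCycle.setoid π
  let b : Ω → Ω := fun ω => (Quotient.mk S ω).out
  have hb : ∀ ω, ∃ n : ℕ, (π ^ n) (b ω) = ω := by
    intro ω
    have h1 : π.SameCycle (b ω) ω := Quotient.exact (Quotient.out_eq (Quotient.mk S ω))
    obtain ⟨n, -, hn⟩ := h1.exists_pow_eq'
    exact ⟨n, hn⟩
  have hbπ : ∀ ω, b (π ω) = b ω := by
    intro ω
    have h1 : Quotient.mk S (π ω) = Quotient.mk S ω := by
      apply Quotient.sound
      change π.SameCycle (π ω) ω
      exact (Equiv.Perm.sameCycle_apply_left).mpr (Equiv.Perm.SameCycle.refl _ _)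
    change (Quotient.mk S (π ω)).out = _
    rw [h1]
  choose n hn using hb
  let β : Ω → G := fun ω => ∏ k ∈ range (n ω), η ((π ^ k) (b ω))
  have hβ0 : ∀ ω, β ω ≠ 0 := fun ω => prod_ne_zero_iff.mpr fun _ _ => hη _
  -- independence of the exponent
  have hind' : ∀ ω (a c : ℕ), (π ^ a) (b ω) = ω → (π ^ (a + c)) (b ω) = ω →
      ∏ k ∈ range (a + c), η ((π ^ k) (b ω)) = ∏ k ∈ range a, η ((π ^ k) (b ω)) := by
    intro ω a c h1 h2
    rcases Nat.eq_zero_or_pos c with rfl | hc
    · rw [add_zero]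
    · rw [prod_range_add]
      have h3 : (π ^ c) ω = ω := by
        rw [add_comm, pow_add, Equiv.Perm.mul_apply, h1] at h2
        exact h2
      have h4 := h ω c hc h3
      have h5 : ∀ k, (π ^ (a + k)) (b ω) = (π ^ k) ω := by
        intro k
        rw [add_comm, pow_add, Equiv.Perm.mul_apply, h1]
      have h6 : ∏ k ∈ range c, η ((π ^ (a + k)) (b ω)) = 1 := by
        rw [← h4]
        exact prod_congr rfl fun k _ => by rw [h5 k]
      rw [h6, mul_one]
  have hind : ∀ ω (a : ℕ), (π ^ a) (b ω) = ω → β ω = ∏ k ∈ range a, η ((π ^ k) (b ω)) := by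
    intro ω a ha
    rcases le_total (n ω) a with h1 | h1
    · obtain ⟨c, rfl⟩ := Nat.exists_eq_add_of_le h1
      exact (hind' ω (n ω) c (hn ω) ha).symm
    · obtain ⟨c, hc⟩ := Nat.exists_eq_add_of_le h1
      have h2 := hind' ω a c ha (by rw [← hc]; exact hn ω)
      change ∏ k ∈ range (n ω), η ((π ^ k) (b ω)) = _
      rw [hc, h2]
  have hstep : ∀ ω, β (π ω) = β ω * η ω := by
    intro ω
    have h1 : (π ^ (n ω + 1)) (b (π ω)) = π ω := by
      rw [hbπ, pow_succ', Equiv.Perm.mul_apply, hn]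
    rw [hind (π ω) (n ω + 1) h1, prod_range_succ, hbπ, hn]
  have h1 : ∏ ω, β (π ω) = ∏ ω, β ω := Equiv.prod_comp π β
  rw [prod_congr rfl fun ω _ => hstep ω, prod_mul_distrib] at h1
  have h2 : ∏ ω, β ω ≠ 0 := prod_ne_zero_iff.mpr fun ω _ => hβ0 ω
  exact mul_left_cancel₀ h2 (h1.trans (mul_one _).symm)

end OE
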