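import Pool.Agent.Helper37.UL.LevEq2
import Pool.Agent.Helper10.OE.Orb

/-!
# Level one structures over extensions of degree prime to `p`

A level one structure over a finite extension `k'` of `k` whose degree is prime to `p` gives a level one
structure over `k` (for a polynomial with coefficients in `k`): take the product over all embeddings of `k'`.
-/

universe u

set_option linter.unusedSectionVars false

namespace OE

open Polynomial Pool.Agent.Helper37.UL Finset

section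

variable {k k' C : Type u} [Field k] [Field k'] [Field C] [Algebra k k'] [Algebra k' C]
  [Algebra k C] [IsScalarTower k k' C] [FiniteDimensional k k'] [IsAlgClosed C] [CharZero C]
  [Algebra.IsAlgebraic k C]

include k in
omit [FiniteDimensional k k'] [CharZero C] in
theorem exists_lift (ω : k' →ₐ[k] C) :
    ∃ τ : C ≃ₐ[k] C, ∀ x : k', τ (algebraMap k' C x) = ω x := by
  have h1 : IsAlgClosure k C := ⟨inferInstance, inferInstance⟩
  have h2 : Normal k C := IsAlgClosure.normal k C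
  let φ : C →ₐ[k] C := ω.liftNormal C
  exact ⟨AlgEquiv.ofBijective φ (Algebra.IsAlgebraic.algHom_bijective φ),
    fun x => ω.liftNormal_commutes C x⟩

/-- the permutation of the embeddings given by an automorphism -/
def permOf (k' : Type u) [Field k'] [Algebra k k'] : (C ≃ₐ[k] C) →* Equiv.Perm (k' →ₐ[k] C) where
  toFun σ :=
    { toFun := fun ω => (σ : C →ₐ[k] C).comp ω
      invFun := fun ω => (σ.symm : C →ₐ[k] C).comp ω
      left_inv := fun ω => by ext x; simp
      right_inv := fun ω => by ext x; simp }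
  map_one' := by ext ω x; rfl
  map_mul' := fun σ τ => by ext ω x; rfl

omit [Algebra k' C] [IsScalarTower k k' C] [FiniteDimensional k k'] [IsAlgClosed C] [CharZero C]
  [Algebra.IsAlgebraic k C] in
theorem permOf_apply (σ : C ≃ₐ[k] C) (ω : k' →ₐ[k] C) (x : k') :
    (permOf k' σ ω) x = σ (ω x) := rfl

/-- chosen extensions of the embeddings -/
noncomputable def lft (ω : k' →ₐ[k] C) : C ≃ₐ[k] C := (exists_lift ω).choose

omit [FiniteDimensional k k'] [CharZero C] in
theorem lft_spec (ω : k' →ₐ[k] C) (x : k') : lft ω (algebraMap k' C x) = ω x :=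
  (exists_lift ω).choose_spec x

/-- the automorphism over `k'` in `σ τ_ω = τ_(σ ω) h` -/
noncomputable def hh (σ : C ≃ₐ[k] C) (ω : k' →ₐ[k] C) : C ≃ₐ[k] C :=
  (lft (permOf k' σ ω))⁻¹ * (σ * lft ω)

omit [FiniteDimensional k k'] [CharZero C] in
theorem hh_fix (σ : C ≃ₐ[k] C) (ω : k' →ₐ[k] C) {y : C} (hy : y ∈ (algebraMap k' C).fieldRange) :
    hh σ ω y = y := by
  obtain ⟨x, rfl⟩ := hy
  change (lft (permOf k' σ ω)).symm (σ (lft ω (algebraMap k' C x))) = _
  rw [lft_spec, AlgEquiv.symm_apply_eq, lft_spec, permOf_apply]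

omit [FiniteDimensional k k'] [CharZero C] in
theorem lft_hh (σ : C ≃ₐ[k] C) (ω : k' →ₐ[k] C) (y : C) :
    σ (lft ω y) = lft (permOf k' σ ω) (hh σ ω y) := by
  change _ = lft (permOf k' σ ω) ((lft (permOf k' σ ω)).symm (σ (lft ω y)))
  rw [AlgEquiv.apply_symm_apply]

variable {p d : ℕ} {a : Fin (d + 1) → C} {θ : Fin d → C} {z : Fin d → Fin d → C} {α : C}
  (hcoef : ∀ i, a i ∈ (algebraMap k C).fieldRange)
  (h : Lev (algebraMap k' C).fieldRange p a θ z α)

include hcoef h in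
omit [IsScalarTower k k' C] [FiniteDimensional k k'] [IsAlgClosed C] [CharZero C]
  [Algebra.IsAlgebraic k C] in
theorem exists_r : ∃ r : (C ≃ₐ[k] C) → Fin d → Fin d, ∀ σ i, σ (θ i) = θ (r σ i) := by
  have h1 : ∀ (σ : C ≃ₐ[k] C) i, ∃ j, σ (θ i) = θ j := by
    intro σ i
    apply root_cases h.lead h.inj h.root
    have h2 := congrArg σ (h.root i)
    rw [map_sum, map_zero] at h2
    rw [← h2]
    apply Finset.sum_congr rfl
    intro l _
    obtain ⟨c, hc⟩ := hcoef l
    rw [map_mul, map_pow, ← hc, AlgEquiv.commutes]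
  choose r hr using h1
  exact ⟨r, hr⟩

section r

variable {r : (C ≃ₐ[k] C) → Fin d → Fin d} (hr : ∀ σ i, σ (θ i) = θ (r σ i))

include h hr

omit [IsScalarTower k k' C] [FiniteDimensional k k'] [IsAlgClosed C] [CharZero C]
  [Algebra.IsAlgebraic k C] in
theorem r_mul (σ τ : C ≃ₐ[k] C) (i : Fin d) : r (σ * τ) i = r σ (r τ i) := by
  apply h.inj
  rw [← hr, ← hr, ← hr]
  rfl

omit [IsScalarTower k k' C] [FiniteDimensional k k'] [IsAlgClosed C] [CharZero C]
  [Algebra.IsAlgebraic k C] in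
theorem r_one (i : Fin d) : r 1 i = i := by
  apply h.inj
  rw [← hr]
  rfl

omit [IsScalarTower k k' C] [FiniteDimensional k k'] [IsAlgClosed C] [CharZero C]
  [Algebra.IsAlgebraic k C] in
theorem r_inj (σ : C ≃ₐ[k] C) : Function.Injective (r σ) := by
  intro i j hij
  apply h.inj
  apply σ.injective
  rw [hr, hr, hij]

omit [IsScalarTower k k' C] [FiniteDimensional k k'] [IsAlgClosed C] [CharZero C]
  [Algebra.IsAlgebraic k C] in
theorem r_inv (σ : C ≃ₐ[k] C) (i : Fin d) : r σ (r σ⁻¹ i) = i := by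
  rw [← r_mul h hr, mul_inv_cancel, r_one h hr]

omit [IsScalarTower k k' C] [FiniteDimensional k k'] [IsAlgClosed C] [CharZero C]
  [Algebra.IsAlgebraic k C] in
theorem r_inv' (σ : C ≃ₐ[k] C) (i : Fin d) : r σ⁻¹ (r σ i) = i := by
  rw [← r_mul h hr, inv_mul_cancel, r_one h hr]

end r

/-- one factor -/
noncomputable def ee (z : Fin d → Fin d → C) (r : (C ≃ₐ[k] C) → Fin d → Fin d) (ω : k' →ₐ[k] C)
    (i j : Fin d) : C :=
  lft ω (z (r (lft ω)⁻¹ i) (r (lft ω)⁻¹ j))

include h in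
omit [FiniteDimensional k k'] [CharZero C] in
/-- The key relation. -/
theorem exists_Z {r : (C ≃ₐ[k] C) → Fin d → Fin d} (hr : ∀ σ i, σ (θ i) = θ (r σ i))
    (σ : C ≃ₐ[k] C) (ω : k' →ₐ[k] C) :
    ∃ Z : Fin d → Fin d → C, (∀ i j, i ≠ j → Z i j ^ p = 1) ∧
      (∀ i j, i ≠ j → σ (ee z r ω i j) = Z i j * ee z r (permOf k' σ ω) (r σ i) (r σ j)) ∧
      (∀ i j l, i ≠ j → j ≠ l → i ≠ l → Z i j * Z j l = Z i l) ∧
      ∀ i, σ (lft ω α) * ∏ j ∈ univ.erase i, Z j i = lft (permOf k' σ ω) α := by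
  classical
  obtain ⟨ρ, ζ, hE⟩ := h.equi ((hh σ ω : C ≃ₐ[k] C) : C ≃+* C) (fun y hy => hh_fix σ ω hy)
  have hE' : ∀ x : C, ((hh σ ω : C ≃ₐ[k] C) : C ≃+* C) x = hh σ ω x := fun _ => rfl
  have hρ : ∀ i, ρ i = r (hh σ ω) i := by
    intro i
    apply h.inj
    rw [← hr, ← hE.root]
    rfl
  have hrinj := fun i j (hij : i ≠ j) => (r_inj h hr (lft ω)⁻¹).ne hij
  have hρr : ∀ i, ρ (r (lft ω)⁻¹ i) = r (lft (permOf k' σ ω))⁻¹ (r σ i) := by
    intro i
    rw [hρ, ← r_mul h hr, ← r_mul h hr]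
    congr 1
    unfold hh
    group
  refine ⟨fun i j => lft (permOf k' σ ω) (ζ (r (lft ω)⁻¹ i) (r (lft ω)⁻¹ j)), ?_, ?_, ?_, ?_⟩
  · intro i j hij
    rw [← map_pow, hE.pow _ _ (hrinj i j hij), map_one]
  · intro i j hij
    unfold ee
    rw [lft_hh]
    have h1 := hE.act _ _ (hrinj i j hij)
    rw [hE'] at h1
    rw [h1, map_mul, hρr, hρr]
  · intro i j l h1 h2 h3
    rw [← map_mul, hE.coc _ _ _ (hrinj i j h1) (hrinj j l h2) (hrinj i l h3)]
  · intro i
    rw [lft_hh]
    have h1 := hE.nrm (r (lft ω)⁻¹ i)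
    rw [hE'] at h1
    have h2 : ∏ j ∈ univ.erase i, lft (permOf k' σ ω) (ζ (r (lft ω)⁻¹ j) (r (lft ω)⁻¹ i)) =
        lft (permOf k' σ ω) (∏ j ∈ univ.erase (r (lft ω)⁻¹ i), ζ j (r (lft ω)⁻¹ i)) := by
      rw [map_prod]
      refine Finset.prod_nbij' (fun j => r (lft ω)⁻¹ j) (fun j => r (lft ω) j) ?_ ?_ ?_ ?_ ?_
      · intro j hj
        rw [Finset.mem_erase] at hj ⊢
        exact ⟨hrinj _ _ hj.1, Finset.mem_univ _⟩
      · intro j hj
        rw [Finset.mem_erase] at hj ⊢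
        refine ⟨fun h2 => hj.1 ?_, Finset.mem_univ _⟩
        rw [← h2, r_inv' h hr]
      · intro j _
        exact r_inv h hr _ _
      · intro j _
        exact r_inv' h hr _ _
      · intro j _
        rfl
    rw [h2, ← map_mul, h1]

end

end OE
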