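import Pool.Agent.Helper10.OE.Desc
import Pool.Agent.Helper91.Section.FinPlace

/-!
# Level one structures over extensions of degree prime to `p`: the descent
-/

universe u

namespace OE

open Polynomial Pool.Agent.Helper37.UL Finset

/-- An automorphism in the inertia group fixes the `p`-th roots of unity. -/
theorem inert_root_unity {C : Type u} [Field C] {k : Subfield C} {V : ValuationSubring C}
    {σ : C ≃+* C} (hσ : Inert k V σ) {p : ℕ} (hp : p.Prime) (hpV : V.valuation (p : C) = 1) {ζ : C}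
    (hζ : ζ ^ p = 1) : σ ζ = ζ := by
  have hζ0 : ζ ≠ 0 := by
    rintro rfl
    rw [zero_pow hp.ne_zero] at hζ
    exact zero_ne_one hζ
  have hζV : ζ ∈ V := by
    rw [← V.valuation_le_one_iff]
    by_contra h1
    rw [not_le] at h1
    have h2 := one_lt_pow₀ h1 hp.ne_zero
    rw [← map_pow, hζ, map_one] at h2
    exact lt_irrefl _ h2
  have hvζ : V.valuation ζ = 1 := by
    have h1 : V.valuation ζ ^ p = 1 := by rw [← map_pow, hζ, map_one]
    exact (pow_eq_one_iff_of_nonneg zero_le hp.ne_zero).mp h1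
  by_contra hne
  set ξ := σ ζ / ζ with hξ
  have hξp : ξ ^ p = 1 := by
    rw [hξ, div_pow, ← map_pow, hζ, map_one, div_one]
  have hξ1 : ξ - 1 ≠ 0 := by
    intro h0
    rw [sub_eq_zero, hξ, div_eq_one_iff_eq hζ0] at h0
    exact hne h0
  have hm : V.valuation (ξ - 1) < 1 := by
    have h1 : ξ - 1 = (σ ζ - ζ) / ζ := by
      rw [hξ]; field_simp
    rw [h1, map_div₀, hvζ, div_one]
    exact hσ.res ζ hζV
  have hξV : ξ ∈ V := by
    have h1 : ξ = (ξ - 1) + 1 := by ring
    rw [h1]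
    exact V.add_mem _ _ ((V.valuation_le_one_iff _).mp hm.le) V.one_mem
  have hsum : ∑ i ∈ range p, ξ ^ i = 0 := by
    have h1 := mul_geom_sum ξ p
    rw [hξp, sub_self] at h1
    exact (mul_eq_zero.mp h1).resolve_left hξ1
  have hdiff : ∀ i : ℕ, V.valuation (ξ ^ i - 1) < 1 := by
    intro i
    have h1 : ξ ^ i - 1 = (ξ - 1) * ∑ l ∈ range i, ξ ^ l := (mul_geom_sum ξ i).symm
    rw [h1, map_mul]
    have h2 : ∑ l ∈ range i, ξ ^ l ∈ V := sum_mem fun l _ => pow_mem hξV l
    calc V.valuation (ξ - 1) * V.valuation (∑ l ∈ range i, ξ ^ l)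
        ≤ V.valuation (ξ - 1) * 1 := by
          gcongr
          exact (V.valuation_le_one_iff _).mpr h2
      _ < 1 := by rwa [mul_one]
  have h1 : V.valuation (∑ i ∈ range p, (ξ ^ i - 1)) < 1 :=
    V.valuation.map_sum_lt one_ne_zero fun i _ => hdiff i
  rw [sum_sub_distrib, hsum, zero_sub, Valuation.map_neg] at h1
  simp only [sum_const, card_range, nsmul_eq_mul, mul_one] at h1
  rw [hpV] at h1
  exact lt_irrefl _ h1

section

variable {k k' C : Type u} [Field k] [Field k'] [Field C] [Algebra k k'] [Algebra k' C]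
  [Algebra k C] [IsScalarTower k k' C] [FiniteDimensional k k'] [IsAlgClosed C] [CharZero C]
  [Algebra.IsAlgebraic k C]

omit [FiniteDimensional k k'] [CharZero C] in
/-- inertia of powers, transported to `k'` -/
theorem inert_hh {V : ValuationSubring C} {σ : C ≃ₐ[k] C}
    (hdec : ∀ x, σ x ∈ V ↔ x ∈ V) (hres : ∀ x ∈ V, V.valuation (σ x - x) < 1)
    {ω : k' →ₐ[k] C} (m : ℕ) (hω : permOf k' (σ ^ m) ω = ω) :
    Inert (algebraMap k' C).fieldRange (V.comap ((lft ω : C ≃ₐ[k] C) : C →+* C))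
      ((hh (σ ^ m) ω : C ≃ₐ[k] C) : C ≃+* C) := by
  have hdecm : ∀ (l : ℕ) x, (σ ^ l) x ∈ V ↔ x ∈ V := by
    intro l
    induction l with
    | zero => intro x; rfl
    | succ l ih =>
      intro x
      rw [pow_succ', AlgEquiv.mul_apply, hdec, ih]
  have hresm : ∀ (l : ℕ), ∀ x ∈ V, V.valuation ((σ ^ l) x - x) < 1 := by
    intro l
    induction l with
    | zero => intro x _; rw [pow_zero, AlgEquiv.one_apply, sub_self, map_zero]; exact zero_lt_one
    | succ l ih =>
      intro x hx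
      rw [pow_succ', AlgEquiv.mul_apply]
      have h1 : σ ((σ ^ l) x) - x = (σ ((σ ^ l) x) - (σ ^ l) x) + ((σ ^ l) x - x) := by ring
      rw [h1]
      exact V.valuation.map_add_lt (hres _ ((hdecm l x).mpr hx)) (ih x hx)
  have hl : ∀ x, lft ω (hh (σ ^ m) ω x) = (σ ^ m) (lft ω x) := by
    intro x
    rw [lft_hh, hω]
  refine ⟨fun x hx => hh_fix _ _ hx, fun x => ?_, fun x hx => ?_⟩
  · change lft ω (hh (σ ^ m) ω x) ∈ V ↔ lft ω x ∈ V
    rw [hl, hdecm]
  · rw [Pool.Agent.Helper91.Sect.comap_val_lt]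
    change V.valuation (lft ω (hh (σ ^ m) ω x - x)) < 1
    rw [map_sub, hl]
    exact hresm m _ hx

variable {p d : ℕ} {a : Fin (d + 1) → C} {θ : Fin d → C} {z : Fin d → Fin d → C} {α : C}

/-- **Descent of level one structures.** -/
theorem lev_descend (hp : p.Prime) (hdeg : ¬ p ∣ Module.finrank k k')
    (hcoef : ∀ i, a i ∈ (algebraMap k C).fieldRange)
    (h : Lev (algebraMap k' C).fieldRange p a θ z α) :
    ∃ (z' : Fin d → Fin d → C) (α' : C), Lev (algebraMap k C).fieldRange p a θ z' α' ∧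
      ∀ V : ValuationSubring C, (∀ i, θ i ∈ V) →
        (∀ i j, i ≠ j → V.valuation (θ i - θ j) = 1) → V.valuation (p : C) = 1 →
        (∀ (τ : C ≃ₐ[k] C) (σ : C ≃+* C), Inert (algebraMap k' C).fieldRange
          (V.comap (τ : C →+* C)) σ → ∀ i j, i ≠ j → σ (z i j) = z i j) →
        ∀ σ : C ≃+* C, Inert (algebraMap k C).fieldRange V σ →
          ∀ i j, i ≠ j → σ (z' i j) = z' i j := by
  classical
  have hk0 : CharZero k := (algebraMap k C).charZero
  obtain ⟨r, hr⟩ := exists_r hcoef h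
  choose Z hZpow hZact hZcoc hZnrm using
    fun (σ : C ≃ₐ[k] C) (ω : k' →ₐ[k] C) => exists_Z h hr σ ω
  set R := Module.finrank k k' with hR
  have hcard : Fintype.card (k' →ₐ[k] C) = R := AlgHom.card k k' C
  obtain ⟨u, v, huv⟩ : ∃ u v : ℕ, R * u = 1 + p * v := by
    have h1 : Nat.Coprime R p := ((Nat.Prime.coprime_iff_not_dvd hp).mpr hdeg).symm
    obtain ⟨m, -, hm⟩ := Nat.exists_mul_mod_eq_one_of_coprime h1 hp.one_lt
    refine ⟨m, R * m / p, ?_⟩
    have h2 := Nat.mod_add_div (R * m) p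
    omega
  set z₁ : Fin d → Fin d → C := fun i j => ∏ ω : k' →ₐ[k] C, ee z r ω i j with hz₁
  set α₁ : C := ∏ ω : k' →ₐ[k] C, lft ω α with hα₁
  have ha0 : a (Fin.last d) ≠ 0 := h.lead
  have hfixa : ∀ (σ : C ≃ₐ[k] C) i, σ (a i) = a i := by
    intro σ i
    obtain ⟨c, hc⟩ := hcoef i
    rw [← hc, AlgEquiv.commutes]
  have hrne : ∀ σ i j, i ≠ j → r σ i ≠ r σ j := fun σ i j hij => (r_inj h hr σ).ne hij
  have hee0 : ∀ (ω : k' →ₐ[k] C) i j, i ≠ j → ee z r ω i j ≠ 0 := by
    intro ω i j hij h0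
    unfold ee at h0
    rw [map_eq_zero_iff _ (lft ω).injective] at h0
    exact h.ne _ _ (hrne _ i j hij) h0
  have hact : ∀ (σ : C ≃ₐ[k] C) i j, i ≠ j →
      σ (z₁ i j) = (∏ ω : k' →ₐ[k] C, Z σ ω i j) * z₁ (r σ i) (r σ j) := by
    intro σ i j hij
    simp only [hz₁]
    rw [map_prod, prod_congr rfl fun ω _ => hZact σ ω i j hij, prod_mul_distrib]
    congr 1
    exact Equiv.prod_comp (permOf k' σ) fun ω => ee z r ω (r σ i) (r σ j)
  have hnrm : ∀ (σ : C ≃ₐ[k] C) i,
      σ α₁ * ∏ j ∈ univ.erase i, ∏ ω : k' →ₐ[k] C, Z σ ω j i = α₁ := by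
    intro σ i
    rw [hα₁, map_prod, Finset.prod_comm, ← prod_mul_distrib,
      prod_congr rfl fun ω _ => hZnrm σ ω i]
    exact Equiv.prod_comp (permOf k' σ) fun ω => lft ω α
  refine ⟨fun i j => z₁ i j ^ u, α₁ ^ u * (a (Fin.last d))⁻¹ ^ v,
    lev_of_equi hcoef h.lead h.inj h.root ?_ ?_ ?_ hp.ne_zero ?_, ?_⟩
  · intro i j hij
    exact pow_ne_zero _ (prod_ne_zero_iff.mpr fun ω _ => hee0 ω i j hij)
  · intro i j _
    obtain ⟨q, hq0, hq⟩ := Algebra.IsAlgebraic.isAlgebraic (R := k) (z₁ i j ^ u)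
    refine ⟨q.map (algebraMap k C).rangeRestrictField, ?_, ?_⟩
    · rwa [Ne, Polynomial.map_eq_zero]
    · rw [aeval_def, eval₂_map]
      exact hq
  · have h1 : α₁ ^ p = a (Fin.last d) ^ R := by
      rw [hα₁, ← prod_pow, ← hcard, ← Finset.card_univ, ← prod_const]
      refine prod_congr rfl fun ω _ => ?_
      rw [← map_pow, h.alpha, hfixa]
    rw [mul_pow, ← pow_mul, mul_comm u p, pow_mul, h1, ← pow_mul, huv, pow_add, pow_one,
      inv_pow, inv_pow, ← pow_mul, mul_comm v p, mul_assoc,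
      mul_inv_cancel₀ (pow_ne_zero _ ha0), mul_one]
  · intro τ hτ
    let σ : C ≃ₐ[k] C := AlgEquiv.ofRingEquiv (f := τ) (fun c => hτ _ ⟨c, rfl⟩)
    have hστ : ∀ x, τ x = σ x := fun _ => rfl
    refine ⟨r σ, fun i j => (∏ ω : k' →ₐ[k] C, Z σ ω i j) ^ u, ?_, ?_, ?_, ?_, ?_⟩
    · intro i
      exact hr σ i
    · intro i j hij
      rw [← pow_mul, mul_comm, pow_mul, ← prod_pow, prod_congr rfl fun ω _ => hZpow σ ω i j hij,
        prod_const_one, one_pow]
    · intro i j hij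
      rw [hστ, map_pow, hact σ i j hij, mul_pow]
    · intro i j l h1 h2 h3
      rw [← mul_pow, ← prod_mul_distrib]
      congr 1
      exact prod_congr rfl fun ω _ => hZcoc σ ω i j l h1 h2 h3
    · intro i
      rw [hστ, map_mul, map_pow, map_pow, map_inv₀, hfixa, prod_pow]
      have h1 := hnrm σ i
      calc σ α₁ ^ u * (a (Fin.last d))⁻¹ ^ v *
            (∏ j ∈ univ.erase i, ∏ ω : k' →ₐ[k] C, Z σ ω j i) ^ u
          = (σ α₁ * ∏ j ∈ univ.erase i, ∏ ω : k' →ₐ[k] C, Z σ ω j i) ^ u *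
            (a (Fin.last d))⁻¹ ^ v := by rw [mul_pow]; ring
        _ = _ := by rw [h1]
  · intro V hθ hsep hpV hin τ hτ i j hij
    let σ : C ≃ₐ[k] C := AlgEquiv.ofRingEquiv (f := τ) (fun c => hτ.fix _ ⟨c, rfl⟩)
    have hστ : ∀ x, τ x = σ x := fun _ => rfl
    have hri : ∀ i, r σ i = i := by
      intro i
      by_contra hne
      have h1 := hτ.res (θ i) (hθ i)
      rw [hστ, hr, hsep _ _ hne] at h1
      exact lt_irrefl _ h1
    have hμ : ∀ ζ : C, ζ ^ p = 1 → σ ζ = ζ := fun ζ hζ => inert_root_unity hτ hp hpV hζ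
    have hprod : ∏ ω : k' →ₐ[k] C, Z σ ω i j = 1 := by
      refine prod_eq_one_of_orbit (permOf k' σ) (fun ω => Z σ ω i j) ?_ ?_
      · intro ω h0
        have h1 := hZpow σ ω i j hij
        rw [h0, zero_pow hp.ne_zero] at h1
        exact zero_ne_one h1
      · intro ω m hm hω
        have hstep : ∀ l : ℕ, (σ ^ l) (ee z r ω i j) =
            (∏ l' ∈ range l, Z σ ((permOf k' σ ^ l') ω) i j) *
              ee z r ((permOf k' σ ^ l) ω) i j := by
          intro l
          induction l with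
          | zero => simp
          | succ l ih =>
            rw [pow_succ', AlgEquiv.mul_apply, ih, map_mul, map_prod,
              prod_congr rfl fun l' _ => hμ _ (hZpow σ _ i j hij), hZact σ _ i j hij, hri, hri,
              prod_range_succ, ← mul_assoc, pow_succ', Equiv.Perm.mul_apply]
        have hωm : permOf k' (σ ^ m) ω = ω := by rw [map_pow]; exact hω
        have h1 : (σ ^ m) (ee z r ω i j) = ee z r ω i j := by
          unfold ee
          rw [lft_hh, hωm]
          have h2 := hin (lft ω) _ (inert_hh (V := V) (σ := σ) hτ.dec hτ.res m hωm)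
            (r (lft ω)⁻¹ i) (r (lft ω)⁻¹ j) (hrne _ i j hij)
          have h3 : hh (σ ^ m) ω (z (r (lft ω)⁻¹ i) (r (lft ω)⁻¹ j)) =
            z (r (lft ω)⁻¹ i) (r (lft ω)⁻¹ j) := h2
          rw [h3]
        have h2 := hstep m
        rw [h1, hω] at h2
        exact mul_right_cancel₀ (hee0 ω i j hij) (h2.symm.trans (one_mul _).symm)
    rw [hστ, map_pow, hact σ i j hij, hprod, one_mul, hri, hri]

end

end OE
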