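import Pool.Agent.Helper91.Section.FinPlace3

/-!
# Places of the residue fields in a finite extension
-/

universe u

namespace OE

open Pool.Agent.Helper91.Sect

/-- The residue field of a valuation ring of a finite extension has places with finite residue field
if the one of its restriction does. -/
theorem hasPlaces_residue {k₀ k : Type u} [Field k₀] [Field k] [Algebra k₀ k]
    [FiniteDimensional k₀ k] (O : ValuationSubring k)
    (h : HasPlaces (IsLocalRing.ResidueField (O.comap (algebraMap k₀ k)))) :
    HasPlaces (IsLocalRing.ResidueField O) := by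
  classical
  let O₀ : ValuationSubring k₀ := O.comap (algebraMap k₀ k)
  let f : O₀ →+* O := ((algebraMap k₀ k).comp O₀.subtype).codRestrict O.toSubring (fun c => c.2)
  have hfc : ∀ a : O₀, ((f a : O) : k) = algebraMap k₀ k a := fun _ => rfl
  have hloc : IsLocalHom f := ⟨fun a ha => by
    obtain ⟨u, hu⟩ := ha
    have h1 : ((u : O) : k) * ((u⁻¹ : Oˣ) : O) = 1 := by
      have := congrArg (fun x : O => (x : k)) (Units.mul_inv u)
      exact this
    rw [hu, hfc] at h1
    have ha0 : (a : k₀) ≠ 0 := by
      intro h0
      rw [h0, map_zero, zero_mul] at h1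
      exact zero_ne_one h1
    have h2 : (((u⁻¹ : Oˣ) : O) : k) = algebraMap k₀ k (a : k₀)⁻¹ := by
      rw [map_inv₀]
      exact eq_inv_of_mul_eq_one_right h1
    have h3 : (a : k₀)⁻¹ ∈ O₀ := by
      have h4 := ((u⁻¹ : Oˣ) : O).2
      rw [h2] at h4
      exact h4
    exact ⟨⟨a, ⟨_, h3⟩, Subtype.ext (mul_inv_cancel₀ ha0), Subtype.ext (inv_mul_cancel₀ ha0)⟩,
      rfl⟩⟩
  let ι : IsLocalRing.ResidueField O₀ →+* IsLocalRing.ResidueField O :=
    IsLocalRing.ResidueField.map f
  let _ : Algebra (IsLocalRing.ResidueField O₀) (IsLocalRing.ResidueField O) := ι.toAlgebra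
  have hι : ∀ a : O₀, algebraMap (IsLocalRing.ResidueField O₀) (IsLocalRing.ResidueField O)
      (IsLocalRing.residue O₀ a) = IsLocalRing.residue O (f a) :=
    fun a => IsLocalRing.ResidueField.map_residue f a
  have hfinite : Module.Finite (IsLocalRing.ResidueField O₀) (IsLocalRing.ResidueField O) := by
    have hrank : Module.rank (IsLocalRing.ResidueField O₀) (IsLocalRing.ResidueField O) ≤
        (Module.finrank k₀ k : ℕ) := by
      refine rank_le fun s hs => ?_
      have hlift : ∀ z : s, ∃ c : O, IsLocalRing.residue O c = z :=
        fun z => IsLocalRing.residue_surjective _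
      choose c hc using hlift
      have hli : LinearIndependent k₀ (fun z : s => (c z : k)) := by
        rw [Fintype.linearIndependent_iff]
        intro g hg
        by_contra hcon
        push Not at hcon
        obtain ⟨i0, hi0⟩ := hcon
        have hne : (Finset.univ : Finset s).Nonempty := ⟨i0, Finset.mem_univ _⟩
        obtain ⟨j, -, hj⟩ := Finset.exists_max_image Finset.univ
          (fun i => O₀.valuation (g i)) hne
        have hgj : g j ≠ 0 := by
          intro h0
          have h1 := hj i0 (Finset.mem_univ _)
          rw [h0, map_zero] at h1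
          exact hi0 (by simpa using h1)
        have hgO : ∀ i, g i / g j ∈ O₀ := by
          intro i
          rw [← O₀.valuation_le_one_iff, map_div₀]
          have h1 : O₀.valuation (g j) ≠ 0 := by simpa using hgj
          exact (div_le_one₀ (zero_lt_iff.2 h1)).2 (hj i (Finset.mem_univ _))
        have hsum : ∑ i, f ⟨g i / g j, hgO i⟩ * c i = 0 := by
          apply Subtype.ext
          have h1 : ((∑ i, f ⟨g i / g j, hgO i⟩ * c i : O) : k) =
              ∑ i, algebraMap k₀ k (g i / g j) * (c i : k) := by
            rw [← ValuationSubring.subtype_apply, map_sum]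
            rfl
          rw [h1]
          have h2 : ∀ i, algebraMap k₀ k (g i / g j) * (c i : k) =
              (algebraMap k₀ k (g j))⁻¹ * (g i • (c i : k)) := by
            intro i
            rw [map_div₀, Algebra.smul_def]
            ring
          rw [Finset.sum_congr rfl fun i _ => h2 i, ← Finset.mul_sum, hg, mul_zero]
          rfl
        have hsum' : ∑ i : s, (IsLocalRing.residue O₀ ⟨g i / g j, hgO i⟩) •
            (i : IsLocalRing.ResidueField O) = 0 := by
          have h1 := congrArg (IsLocalRing.residue O) hsum
          rw [map_sum, map_zero] at h1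
          rw [← h1]
          refine Finset.sum_congr rfl fun i _ => ?_
          rw [Algebra.smul_def, hι, map_mul, hc]
        have h5 := Fintype.linearIndependent_iff.1 hs _ hsum' j
        have h6 : (⟨g j / g j, hgO j⟩ : O₀) = 1 := Subtype.ext (div_self hgj)
        rw [h6, map_one] at h5
        exact one_ne_zero h5
      have h7 := hli.fintype_card_le_finrank
      rwa [Fintype.card_coe] at h7
    exact Module.rank_lt_aleph0_iff.1 (hrank.trans_lt (Cardinal.natCast_lt_aleph0))
  exact HasPlaces.algebraic (K := IsLocalRing.ResidueField O₀) h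

end OE
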