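import Pool.Agent.Helper10.OE.Desc2
import Pool.Agent.Helper10.OE.Res
import Pool.Agent.Helper37.UL.StubA
import Pool.Agent.Helper10.UL.Count

/-!
# Level one structures attached to Galois sections over extensions of degree prime to `p`
-/

universe u

namespace OE

open Polynomial Pool.Agent.Helper37.UL Pool.Agent.Helper91.Sect UL

/-- a curve over `y ^ p = f(x)` has a section over a finite extension of degree prime to `p` -/
def SectionE {k : Type u} [Field k] (p : ℕ) (f : k[X]) : Prop :=
  ∃ (k' : Type u) (_ : Field k') (_ : Algebra k k'), FiniteDimensional k k' ∧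
    ¬ p ∣ Module.finrank k k' ∧ SectionP p (f.map (algebraMap k k'))

/-- a level one structure over `k` with trivial action of the inertia groups of good places -/
def HasLev {k : Type u} [Field k] (C : Type u) [Field C] [Algebra k C] (p d : ℕ) (f : k[X]) :
    Prop :=
  ∃ (θ : Fin d → C) (z : Fin d → Fin d → C) (α : C),
    Lev (algebraMap k C).fieldRange p (fun i : Fin (d + 1) => algebraMap k C (f.coeff i)) θ z α ∧
    ∀ V : ValuationSubring C,
      HasPlaces (IsLocalRing.ResidueField (V.comap (algebraMap k C))) →
      ((p : ℕ) : IsLocalRing.ResidueField (V.comap (algebraMap k C))) ≠ 0 →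
      GoodAt V (fun i : Fin (d + 1) => algebraMap k C (f.coeff i)) θ →
      ∀ σ : C ≃+* C, Inert (algebraMap k C).fieldRange V σ →
        ∀ i j, i ≠ j → σ (z i j) = z i j

theorem natCast_residue_iff {k : Type u} [Field k] {O : ValuationSubring k} {p : ℕ} :
    ((p : ℕ) : IsLocalRing.ResidueField O) ≠ 0 ↔ ¬ O.valuation (p : k) < 1 := by
  rw [← map_natCast (IsLocalRing.residue O) p, Ne, IsLocalRing.residue_eq_zero_iff,
    O.valuation_lt_one_iff]
  rfl

theorem comap_val_eq_one {K L : Type u} [Field K] [Field L] {O : ValuationSubring L} (f : K →+* L)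
    {z : K} : (O.comap f).valuation z = 1 ↔ O.valuation (f z) = 1 := by
  have h1 := comap_val_lt (O := O) f (z := z)
  have h2 : (O.comap f).valuation z ≤ 1 ↔ O.valuation (f z) ≤ 1 := by
    rw [ValuationSubring.valuation_le_one_iff, ValuationSubring.valuation_le_one_iff,
      ValuationSubring.mem_comap]
  rw [eq_iff_le_not_lt, eq_iff_le_not_lt, h1, h2]

theorem exists_lev_ext {k : Type u} [Field k] [CharZero k] {p d : ℕ} (hp : p.Prime) (hdvd : p ∣ d)
    (hd : 3 ≤ d) {f : k[X]} (hf : f.Separable) (hfd : f.natDegree = d) (h : SectionE p f)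
    (C : Type u) [Field C] [Algebra k C] [IsAlgClosure k C] : HasLev C p d f := by
  classical
  obtain ⟨k', _, _, hfin, hdeg, K, _, _, x, y, hx, hxy, ⟨s⟩⟩ := h
  have hC1 : IsAlgClosed C := IsAlgClosure.isAlgClosed k
  have hC2 : Algebra.IsAlgebraic k C := IsAlgClosure.isAlgebraic
  have hC3 : CharZero C := charZero_of_injective_algebraMap (algebraMap k C).injective
  have hk' : CharZero k' := charZero_of_injective_algebraMap (algebraMap k k').injective
  let ι : k' →ₐ[k] C := IsAlgClosed.lift
  let _ : Algebra k' C := ι.toRingHom.toAlgebra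
  have hst : IsScalarTower k k' C := IsScalarTower.of_algebraMap_eq fun x => (ι.commutes x).symm
  have halg : Algebra.IsAlgebraic k' C := Algebra.IsAlgebraic.tower_top (K := k) k'
  have hcl : IsAlgClosure k' C := ⟨hC1, halg⟩
  obtain ⟨θ, z, α, hlev, hin⟩ := exists_lev hp hdvd hd (f := f.map (algebraMap k k')) hf.map
    (by rw [natDegree_map, hfd]) hx hxy s C
  have hco : ∀ i : ℕ, algebraMap k' C ((f.map (algebraMap k k')).coeff i) =
      algebraMap k C (f.coeff i) := by
    intro i
    rw [coeff_map, ← IsScalarTower.algebraMap_apply]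
  simp only [hco] at hlev hin
  obtain ⟨z', α', hlev', hin'⟩ := lev_descend hp hdeg (fun i => ⟨_, rfl⟩) hlev
  refine ⟨θ, z', α', hlev', fun V hκ hpκ hgood => ?_⟩
  have hpV0 : ¬ V.valuation (p : C) < 1 := by
    rw [natCast_residue_iff, comap_val_lt, map_natCast] at hpκ
    exact hpκ
  have hpV : V.valuation (p : C) = 1 := by
    refine le_antisymm ?_ (not_lt.mp hpV0)
    rw [V.valuation_le_one_iff]
    exact natCast_mem V p
  refine hin' V hgood.root hgood.sep hpV fun τ σ hσ => ?_
  set V' : ValuationSubring C := V.comap (τ : C →+* C) with hV'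
  have hcomap : (V'.comap (algebraMap k' C)).comap (algebraMap k k') = V.comap (algebraMap k C) := by
    ext c
    rw [ValuationSubring.mem_comap, ValuationSubring.mem_comap, ValuationSubring.mem_comap,
      ValuationSubring.mem_comap, ← IsScalarTower.algebraMap_apply]
    change τ (algebraMap k C c) ∈ V ↔ _
    rw [AlgEquiv.commutes]
  have hcoefτ : ∀ i : ℕ, τ (algebraMap k C (f.coeff i)) = algebraMap k C (f.coeff i) := fun i =>
    τ.commutes _
  -- the automorphism permutes the roots
  have hperm : ∀ i, ∃ j, τ (θ i) = θ j := by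
    intro i
    apply root_cases hlev.lead hlev.inj hlev.root
    have h2 := congrArg τ (hlev.root i)
    rw [map_sum, map_zero] at h2
    rw [← h2]
    apply Finset.sum_congr rfl
    intro l _
    rw [map_mul, map_pow, hcoefτ]
  refine hin V' ?_ ?_ ?_ σ hσ
  · apply hasPlaces_residue (k₀ := k)
    rw [hcomap]
    exact hκ
  · rw [natCast_residue_iff, comap_val_lt, map_natCast, comap_val_lt, map_natCast]
    exact hpV0
  · refine ⟨fun i => ?_, ?_, fun i => ?_, fun i j hij => ?_⟩
    · change τ (algebraMap k C (f.coeff i)) ∈ V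
      rw [hcoefτ]
      exact hgood.coef i
    · rw [comap_val_eq_one]
      change V.valuation (τ (algebraMap k C (f.coeff (Fin.last d)))) = 1
      rw [hcoefτ]
      exact hgood.lead
    · obtain ⟨j, hj⟩ := hperm i
      change τ (θ i) ∈ V
      rw [hj]
      exact hgood.root j
    · obtain ⟨i', hi'⟩ := hperm i
      obtain ⟨j', hj'⟩ := hperm j
      rw [comap_val_eq_one]
      change V.valuation (τ (θ i - θ j)) = 1
      rw [map_sub, hi', hj']
      apply hgood.sep
      rintro rfl
      exact hij (hlev.inj (τ.injective (hi'.trans hj'.symm)))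

end OE
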